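import Mathlib
import Pool.Agent.H780W.B
import Pool.Agent.Results.MP_8bfff4_mp.ExactValue

namespace Pool.Agent.Results.MP_4e951d_mp.IndexWithinOne

open Matrix

/-- `S_L(A)`: the span of all products `A_{i_1} ⋯ A_{i_L}` of length `L`. -/
def prodSpan {D d : ℕ} (A : Fin d → Matrix (Fin D) (Fin D) ℂ) (L : ℕ) :
    Submodule ℂ (Matrix (Fin D) (Fin D) ℂ) :=
  Submodule.span ℂ (Set.range fun w : Fin L → Fin d => (List.ofFn fun j => A (w j)).prod)

/-- `A` is normal: `S_L(A)` is the whole matrix algebra for some `L ≥ 1`. -/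
def Normal {D d : ℕ} (A : Fin d → Matrix (Fin D) (Fin D) ℂ) : Prop :=
  ∃ L, 1 ≤ L ∧ prodSpan A L = ⊤

/-- The injectivity index `i(A)`: the least `L ≥ 1` with `S_L(A) = M_D(ℂ)`. -/
noncomputable def injIndex {D d : ℕ} (A : Fin d → Matrix (Fin D) (Fin D) ℂ) : ℕ :=
  sInf {L | 1 ≤ L ∧ prodSpan A L = ⊤}

/-- All injectivity indices of normal tuples of `D × D` matrices, over all `d ≥ 1`. Its maximum
is `N(D)`. -/
def indices (D : ℕ) : Set ℕ :=
  {L | ∃ (d : ℕ) (A : Fin d → Matrix (Fin D) (Fin D) ℂ), 1 ≤ d ∧ Normal A ∧ injIndex A = L}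

open Pool.Agent.Results.MP_8bfff4_mp.ExactValue in
lemma prodSpan_eq {D d : ℕ} (A : Fin d → Matrix (Fin D) (Fin D) ℂ) (L : ℕ) :
    prodSpan A L = (Submodule.span ℂ (Set.range A)) ^ L := by
  rw [Submodule.span_pow]
  unfold prodSpan
  congr 1
  ext M
  rw [Set.mem_pow]
  constructor
  · rintro ⟨w, rfl⟩
    exact ⟨fun j => ⟨A (w j), w j, rfl⟩, rfl⟩
  · rintro ⟨f, rfl⟩
    choose w hw using fun j => (f j).2
    refine ⟨w, ?_⟩
    simp only [hw]

section

variable {D d : ℕ} {A : Fin d → Matrix (Fin D) (Fin D) ℂ}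

lemma injIndex_mem (h : Normal A) : 1 ≤ injIndex A ∧ prodSpan A (injIndex A) = ⊤ :=
  Nat.sInf_mem (s := {L | 1 ≤ L ∧ prodSpan A L = ⊤}) h

lemma injIndex_le {L : ℕ} (h1 : 1 ≤ L) (h2 : prodSpan A L = ⊤) : injIndex A ≤ L :=
  Nat.sInf_le (s := {L | 1 ≤ L ∧ prodSpan A L = ⊤}) ⟨h1, h2⟩

end

/-- the lower bound -/
lemma lower (D : ℕ) (hD : 1 ≤ D) : ∃ (A : Fin 2 → Matrix (Fin D) (Fin D) ℂ),
    Normal A ∧ D ^ 2 - D + 1 ≤ injIndex A := by
  obtain ⟨k, rfl⟩ | rfl : (∃ k, D = k + 2) ∨ D = 1 := by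
    rcases Nat.lt_or_ge 1 D with h | h
    · left; exact ⟨D - 2, by omega⟩
    · right; omega
  · open Pool.Agent.Results.MP_8bfff4_mp.ExactValue in
    have h1 : Full ((Submodule.span ℂ (Set.range (Ex.K k))) ^ ((k+2)*(k+1)+1)) :=
      (fullRankAt_iff (Ex.K k) _).1 (Ex.T_fullRank k)
    have h2 : ¬ Full ((Submodule.span ℂ (Set.range (Ex.K k))) ^ ((k+2)*(k+1))) := fun h =>
      Ex.T_not_fullRank k ((fullRankAt_iff (Ex.K k) _).2 h)
    obtain ⟨N, hN⟩ := exists_top (by omega) h1
    have h3 : Normal (Ex.K k) :=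
      ⟨N + 1, by omega, by rw [prodSpan_eq]; exact top_succ (by omega) h1 hN⟩
    refine ⟨Ex.K k, h3, ?_⟩
    by_contra hcon
    push Not at hcon
    obtain ⟨-, h4⟩ := injIndex_mem h3
    rw [prodSpan_eq] at h4
    apply h2
    apply full_of_top
    apply top_le (by omega) h1 _ h4
    have e : (k+2)^2 = (k+2)*(k+1) + (k+2) := by ring
    omega
  · have h3 : Normal (fun _ : Fin 2 => (1 : Matrix (Fin 1) (Fin 1) ℂ)) := by
      refine ⟨1, le_rfl, ?_⟩
      rw [prodSpan_eq, pow_one, eq_top_iff]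
      intro M _
      have : M = (M 0 0) • (1 : Matrix (Fin 1) (Fin 1) ℂ) := by
        ext i j
        obtain rfl : i = 0 := Subsingleton.elim _ _
        obtain rfl : j = 0 := Subsingleton.elim _ _
        simp
      rw [this]
      apply Submodule.smul_mem
      apply Submodule.subset_span
      exact ⟨0, rfl⟩
    exact ⟨_, h3, (injIndex_mem h3).1⟩

lemma upper_one {d : ℕ} {A : Fin d → Matrix (Fin 1) (Fin 1) ℂ} (h : Normal A) :
    injIndex A ≤ 1 := by
  obtain ⟨L, hL1, hL⟩ := h
  apply injIndex_le le_rfl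
  rw [prodSpan_eq] at hL ⊢
  rw [pow_one]
  by_contra hcon
  have h0 : ∀ M ∈ Submodule.span ℂ (Set.range A), M = 0 := by
    intro M hM
    by_contra hM0
    apply hcon
    rw [eq_top_iff]
    intro X _
    have h00 : M 0 0 ≠ 0 := by
      intro h
      apply hM0
      ext i j
      obtain rfl : i = 0 := Subsingleton.elim _ _
      obtain rfl : j = 0 := Subsingleton.elim _ _
      simpa using h
    have : X = (X 0 0 * (M 0 0)⁻¹) • M := by
      ext i j
      obtain rfl : i = 0 := Subsingleton.elim _ _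
      obtain rfl : j = 0 := Subsingleton.elim _ _
      simp [mul_assoc, inv_mul_cancel₀ h00]
    rw [this]
    exact Submodule.smul_mem _ _ hM
  have h1 : Submodule.span ℂ (Set.range A) = ⊥ := by
    rw [eq_bot_iff]
    intro M hM
    exact (Submodule.mem_bot ℂ).2 (h0 M hM)
  rw [h1] at hL
  obtain ⟨L', rfl⟩ : ∃ L', L = L' + 1 := ⟨L - 1, by omega⟩
  rw [pow_succ, Submodule.mul_bot] at hL
  have h2 : (1 : Matrix (Fin 1) (Fin 1) ℂ) ∈ (⊥ : Submodule ℂ (Matrix (Fin 1) (Fin 1) ℂ)) := by
    rw [hL]; trivial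
  rw [Submodule.mem_bot] at h2
  exact one_ne_zero h2

lemma upper {D d : ℕ} (hD : 1 ≤ D) {A : Fin d → Matrix (Fin D) (Fin D) ℂ} (h : Normal A) :
    injIndex A ≤ D ^ 2 - D + 2 := by
  obtain ⟨k, rfl⟩ | rfl : (∃ k, D = k + 2) ∨ D = 1 := by
    rcases Nat.lt_or_ge 1 D with h | h
    · left; exact ⟨D - 2, by omega⟩
    · right; omega
  · obtain ⟨L, hL1, hL⟩ := h
    rw [prodSpan_eq] at hL
    apply injIndex_le (by omega)
    rw [prodSpan_eq, pow_two]
    exact H780W.top_bound (by omega) hL
  · exact (upper_one h).trans (by norm_num)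

/-- **Injectivity index of normal matrix product states, within one unit.**
(1) For every `D ≥ 1` the maximum `N(D)` of the injectivity indices exists and is `D² - D + 1`
or `D² - D + 2`.
(2) `N(1) = 1` and `N(2) = 3`.
(3) If no combination of the `A_i` is invertible, the index is at most `D² - D + 1`.
(4) A tuple of index `D² - D + 2` must have `S_{D²-D+1}(A)` equal to the traceless matrices. -/
theorem result :
    (∀ D : ℕ, 1 ≤ D → ∃ N, IsGreatest (indices D) N ∧ D ^ 2 - D + 1 ≤ N ∧ N ≤ D ^ 2 - D + 2) ∧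
    IsGreatest (indices 1) 1 ∧ IsGreatest (indices 2) 3 ∧
    (∀ (D d : ℕ) (A : Fin d → Matrix (Fin D) (Fin D) ℂ), 1 ≤ D → Normal A →
      (∀ c : Fin d → ℂ, ¬ IsUnit (∑ i, c i • A i)) → injIndex A ≤ D ^ 2 - D + 1) ∧
    (∀ (D d : ℕ) (A : Fin d → Matrix (Fin D) (Fin D) ℂ), 1 ≤ D → Normal A →
      injIndex A ≤ D ^ 2 - D + 1 ∨
        (injIndex A = D ^ 2 - D + 2 ∧
          ∀ M, M ∈ prodSpan A (D ^ 2 - D + 1) ↔ M.trace = 0)) := by
  have hmax : ∀ D : ℕ, 1 ≤ D →
      ∃ N, IsGreatest (indices D) N ∧ D ^ 2 - D + 1 ≤ N ∧ N ≤ D ^ 2 - D + 2 := by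
    intro D hD
    obtain ⟨A, hA, hA2⟩ := lower D hD
    have hbd : ∀ L ∈ indices D, L ≤ D ^ 2 - D + 2 := by
      rintro L ⟨d, A, -, hA, rfl⟩
      exact upper hD hA
    have hne : (indices D).Nonempty := ⟨_, 2, A, by norm_num, hA, rfl⟩
    have h1 : sSup (indices D) ∈ indices D := Nat.sSup_mem hne ⟨_, hbd⟩
    have h2 : ∀ L ∈ indices D, L ≤ sSup (indices D) := fun L hL => le_csSup ⟨_, hbd⟩ hL
    exact ⟨_, ⟨h1, h2⟩, hA2.trans (h2 _ ⟨2, A, by norm_num, hA, rfl⟩), hbd _ h1⟩
  refine ⟨hmax, ?_, ?_, ?_, ?_⟩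
  · obtain ⟨A, hA, hA2⟩ := lower 1 le_rfl
    have hbd : ∀ L ∈ indices 1, L ≤ 1 := by
      rintro L ⟨d, A, -, hA, rfl⟩
      exact upper_one hA
    exact ⟨⟨2, A, by norm_num, hA, le_antisymm (upper_one hA) (by simpa using hA2)⟩, hbd⟩
  · obtain ⟨A, hA, hA2⟩ := lower 2 (by norm_num)
    have hup : ∀ {d : ℕ} {A : Fin d → Matrix (Fin 2) (Fin 2) ℂ}, Normal A → injIndex A ≤ 3 := by
      intro d A h
      obtain ⟨L, hL1, hL⟩ := h
      rw [prodSpan_eq] at hL
      apply injIndex_le (by omega)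
      rw [prodSpan_eq]
      exact H780W.top_bound_two hL
    refine ⟨⟨2, A, by norm_num, hA, le_antisymm (hup hA) (by simpa using hA2)⟩, ?_⟩
    rintro L ⟨d, A, -, hA, rfl⟩
    exact hup hA
  · intro D d A hD hA hs
    obtain ⟨k, rfl⟩ | rfl : (∃ k, D = k + 2) ∨ D = 1 := by
      rcases Nat.lt_or_ge 1 D with h | h
      · left; exact ⟨D - 2, by omega⟩
      · right; omega
    · obtain ⟨L, hL1, hL⟩ := hA
      rw [prodSpan_eq] at hL
      apply injIndex_le (by omega)
      rw [prodSpan_eq, pow_two]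
      apply H780W.part1_top (by omega) hL
      intro X hX
      rw [Submodule.mem_span_range_iff_exists_fun] at hX
      obtain ⟨c, rfl⟩ := hX
      exact hs c
    · exact (upper_one hA).trans (by norm_num)
  · intro D d A hD hA
    obtain ⟨k, rfl⟩ | rfl : (∃ k, D = k + 2) ∨ D = 1 := by
      rcases Nat.lt_or_ge 1 D with h | h
      · left; exact ⟨D - 2, by omega⟩
      · right; omega
    · by_cases hcase : injIndex A ≤ (k+2) ^ 2 - (k+2) + 1
      · left; exact hcase
      · right
        push Not at hcase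
        obtain ⟨hL1, hL⟩ := injIndex_mem hA
        rw [prodSpan_eq] at hL
        have hmin : ∀ i, i < injIndex A → (Submodule.span ℂ (Set.range A)) ^ i ≠ ⊤ := by
          intro i hi htop
          rcases Nat.eq_zero_or_pos i with h0 | h0
          · subst h0
            rw [pow_zero] at htop
            have h6 : Pool.Agent.Results.MP_8bfff4_mp.ExactValue.fr
              (1 : Submodule ℂ (Matrix (Fin (k+2)) (Fin (k+2)) ℂ)) = (k+2) * (k+2) := by
              rw [htop, Pool.Agent.Results.MP_8bfff4_mp.ExactValue.fr_top]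
            have h7 : Pool.Agent.Results.MP_8bfff4_mp.ExactValue.fr
              (1 : Submodule ℂ (Matrix (Fin (k+2)) (Fin (k+2)) ℂ)) ≤ 1 := by
              rw [← Pool.Agent.Results.MP_8bfff4_mp.ExactValue.ln_one]
              unfold Pool.Agent.Results.MP_8bfff4_mp.ExactValue.fr
                Pool.Agent.Results.MP_8bfff4_mp.ExactValue.ln
              exact (finrank_span_le_card _).trans (by simp)
            have h8 : 2 * 2 ≤ (k+2) * (k+2) := Nat.mul_le_mul (by omega) (by omega)
            omega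
          · have := injIndex_le h0 (by rw [prodSpan_eq]; exact htop)
            omega
        obtain ⟨Y, hY, hYu⟩ : ∃ Y ∈ Submodule.span ℂ (Set.range A), IsUnit Y := by
          by_contra hcon
          push Not at hcon
          have h1 := H780W.part1_top (by omega) hL hcon
          have h2 := injIndex_le (A := A) (L := (k+2)*(k+2) - (k+2) + 1) (by omega)
            (by rw [prodSpan_eq]; exact h1)
          rw [pow_two] at hcase
          omega
        rw [pow_two] at hcase ⊢
        obtain ⟨h1, h2, -⟩ := H780W.exception (by omega) hY hYu hL hmin hcase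
        refine ⟨h1, ?_⟩
        rw [prodSpan_eq]
        have h3 := Pool.Agent.Results.MP_8bfff4_mp.ExactValue.fr_of_rank_one (by omega) h2
        have h4 := hmin ((k+2)*(k+2) - (k+2) + 1) (by omega)
        -- both sides have codimension one
        let Z : Submodule ℂ (Matrix (Fin (k+2)) (Fin (k+2)) ℂ) :=
          LinearMap.ker (Matrix.traceLinearMap (Fin (k+2)) ℂ ℂ)
        have hZ : ∀ M, M ∈ Z ↔ M.trace = 0 := by
          intro M
          rw [LinearMap.mem_ker, Matrix.traceLinearMap_apply]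
        have hZtop : Z ≠ ⊤ := by
          intro h
          have h5 : (1 : Matrix (Fin (k+2)) (Fin (k+2)) ℂ) ∈ Z := by rw [h]; trivial
          rw [hZ, Matrix.trace_one, Fintype.card_fin] at h5
          have : ((k + 2 : ℕ) : ℂ) ≠ 0 := by exact_mod_cast (by omega : k + 2 ≠ 0)
          exact this h5
        have hZle : Z ≤ (Submodule.span ℂ (Set.range A)) ^ ((k+2)*(k+2) - (k+2) + 1) := by
          have h5 := Pool.Agent.Results.MP_8bfff4_mp.ExactValue.top_of_rank_one (by omega)
            (S := (Submodule.span ℂ (Set.range A)) ^ ((k+2)*(k+2) - (k+2) + 1) ⊓ Z) (by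
              intro u η hη
              refine ⟨h2 u η hη, ?_⟩
              apply (hZ _).2
              unfold Pool.Agent.Results.MP_8bfff4_mp.ExactValue.rk
              rw [Matrix.trace_vecMulVec, dotProduct_comm]
              exact hη)
          intro M hM
          have h6 : M ∈ ((Submodule.span ℂ (Set.range A)) ^ ((k+2)*(k+2) - (k+2) + 1) ⊓ Z) ⊔
              Pool.Agent.Results.MP_8bfff4_mp.ExactValue.ln 1 := by rw [h5]; trivial
          obtain ⟨x, hx, y, hy, rfl⟩ := Submodule.mem_sup.1 h6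
          obtain ⟨c, rfl⟩ := Submodule.mem_span_singleton.1 hy
          have h7 : c • (1 : Matrix (Fin (k+2)) (Fin (k+2)) ℂ) ∈ Z := by
            have := Z.sub_mem hM hx.2
            rwa [add_sub_cancel_left] at this
          rw [hZ, Matrix.trace_smul, Matrix.trace_one, Fintype.card_fin, smul_eq_mul] at h7
          have h8 : ((k + 2 : ℕ) : ℂ) ≠ 0 := by exact_mod_cast (by omega : k + 2 ≠ 0)
          have h9 : c = 0 := by
            rcases mul_eq_zero.1 h7 with h | h
            · exact h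
            · exact absurd h h8
          rw [h9, zero_smul, add_zero]
          exact hx.1
        have hZeq : (Submodule.span ℂ (Set.range A)) ^ ((k+2)*(k+2) - (k+2) + 1) = Z := by
          apply le_antisymm _ hZle
          by_contra hcon
          have h5 : Z < (Submodule.span ℂ (Set.range A)) ^ ((k+2)*(k+2) - (k+2) + 1) :=
            lt_of_le_not_ge hZle hcon
          have h6 := Submodule.finrank_lt_finrank_of_lt h5
          have h7 := Submodule.finrank_lt h4
          have h8 := LinearMap.finrank_range_add_finrank_ker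
            (Matrix.traceLinearMap (Fin (k+2)) ℂ ℂ)
          have h9 : Module.finrank ℂ
              (LinearMap.range (Matrix.traceLinearMap (Fin (k+2)) ℂ ℂ)) ≤ 1 := by
            have := Submodule.finrank_le (LinearMap.range (Matrix.traceLinearMap (Fin (k+2)) ℂ ℂ))
            simpa using this
          have h10 : Module.finrank ℂ Z = Module.finrank ℂ
            (LinearMap.ker (Matrix.traceLinearMap (Fin (k+2)) ℂ ℂ)) := rfl
          omega
        rw [hZeq]
        exact hZ
    · left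
      exact (upper_one hA).trans (by norm_num)

end Pool.Agent.Results.MP_4e951d_mp.IndexWithinOne
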